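import Mathlib
import Pool.Agent.Helper36.SPR.St

/-!
# Project SPR (MP_343216_nt), module EP

Exponential sums over powers of two modulo a prime.
-/

set_option autoImplicit false

namespace Pool.Agent.Helper13.SPR

open Pool.Agent.Helper36.SPR
open Finset

/-- the sequence of exponents `1, 4, 64, ...` -/
def jj : ℕ → ℕ
  | 0 => 1
  | i + 1 => 4 * jj i ^ 2

theorem jj_pos (i : ℕ) : 1 ≤ jj i := by
  induction i with
  | zero => simp [jj]
  | succ i ih =>
    have : 0 < 4 * jj i ^ 2 := by positivity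
    exact this

theorem jj_mono (i : ℕ) : jj i ≤ jj (i + 1) := by
  have h := jj_pos i
  show jj i ≤ 4 * jj i ^ 2
  nlinarith

theorem ep_step (hNB : StNB) (hOR : StOR) (hFP : StFP) (p T : ℕ) [NeZero p] (hp : p.Prime)
    (hT : 0 < T) (h2 : (2 : ZMod p) ^ T = 1) (hK : 2 ≤ (p : ℝ) ^ (1 / 88000 : ℝ))
    (hord : (p : ℝ) ^ (1 / 3 : ℝ) ≤ orderOf (2 : ZMod p)) (i : ℕ) :
    bet p T (jj i) ≤ (p : ℝ) ^ (-(3 / 4) : ℝ) ∨
      bet p T (jj i) ≤ (p : ℝ) ^ (-(1 / 3) - (i : ℝ) / 88000 : ℝ) := by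
  have hp1 : (1 : ℝ) < p := by exact_mod_cast hp.one_lt
  have hp0 : (0 : ℝ) < p := by linarith
  induction i with
  | zero =>
    right
    have h1 : bet p T (jj 0) = 1 / (orderOf (2 : ZMod p) : ℝ) := hOR p T hT h2
    rw [h1]
    have h3 : (0 : ℝ) < (p : ℝ) ^ (1 / 3 : ℝ) := Real.rpow_pos_of_pos hp0 _
    have h4 := one_div_le_one_div_of_le h3 hord
    refine h4.trans (le_of_eq ?_)
    rw [show (-(1 / 3) - ((0 : ℕ) : ℝ) / 88000 : ℝ) = -(1 / 3 : ℝ) by push_cast; ring,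
      Real.rpow_neg hp0.le, one_div]
  | succ i ih =>
    have hmono : bet p T (jj (i + 1)) ≤ bet p T (jj i) :=
      (hNB p T hT (jj i)).2.2.2.2.2.2 (jj (i + 1)) (jj_mono i)
    rcases ih with h | h
    · exact Or.inl (hmono.trans h)
    · by_cases hc : bet p T (jj i) ≤ (p : ℝ) ^ (-(3 / 4) : ℝ)
      · exact Or.inl (hmono.trans hc)
      · right
        push Not at hc
        by_contra hcon
        push Not at hcon
        have hK0 : (0 : ℝ) < (p : ℝ) ^ (1 / 88000 : ℝ) := Real.rpow_pos_of_pos hp0 _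
        have h5 : bet p T (jj i) ≤ (p : ℝ) ^ (1 / 88000 : ℝ) * bet p T (4 * jj i ^ 2) := by
          refine h.trans ?_
          have h6 : (p : ℝ) ^ (-(1 / 3) - (i : ℝ) / 88000 : ℝ)
              = (p : ℝ) ^ (1 / 88000 : ℝ) *
                (p : ℝ) ^ (-(1 / 3) - ((i + 1 : ℕ) : ℝ) / 88000 : ℝ) := by
            rw [← Real.rpow_add hp0]
            congr 1
            push_cast
            ring
          rw [h6]
          exact mul_le_mul_of_nonneg_left hcon.le hK0.le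
        have h7 : ((p : ℝ) ^ (1 / 88000 : ℝ)) ^ 22000 = (p : ℝ) ^ (1 / 4 : ℝ) := by
          rw [← Real.rpow_natCast, ← Real.rpow_mul hp0.le]
          norm_num
        have h8 := hFP p T (jj i) ((p : ℝ) ^ (1 / 88000 : ℝ)) hp hT h2 (jj_pos i) hK h5
        rw [h7] at h8
        have hq0 : (0 : ℝ) < (p : ℝ) ^ (1 / 4 : ℝ) := Real.rpow_pos_of_pos hp0 _
        rcases h8 with h8 | h8
        · have h9 : (p : ℝ) ^ (1 / 4 : ℝ) * bet p T (jj i)
              ≤ (p : ℝ) ^ (1 / 4 : ℝ) * (p : ℝ) ^ (-(1 / 3) - (i : ℝ) / 88000 : ℝ) :=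
            mul_le_mul_of_nonneg_left h hq0.le
          rw [← Real.rpow_add hp0] at h9
          have h10 : (p : ℝ) ^ (1 / 4 + (-(1 / 3) - (i : ℝ) / 88000) : ℝ) < 1 := by
            apply Real.rpow_lt_one_of_one_lt_of_neg hp1
            have : (0 : ℝ) ≤ (i : ℝ) / 88000 := by positivity
            linarith
          linarith
        · have h9 : (p : ℝ) * (p : ℝ) ^ (-(3 / 4) : ℝ) = (p : ℝ) ^ (1 / 4 : ℝ) := by
            nth_rewrite 1 [← Real.rpow_one (p : ℝ)]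
            rw [← Real.rpow_add hp0]
            norm_num
          have h10 := mul_lt_mul_of_pos_left hc hp0
          linarith

theorem hEP (hNB : StNB) (hOR : StOR) (hBI : StBI) (hFP : StFP) : StEP := by
  obtain ⟨I, hI⟩ : ∃ I : ℕ, (5 : ℝ) / 12 ≤ (I : ℝ) / 88000 := ⟨36667, by norm_num⟩
  obtain ⟨J, hJ, hJ1⟩ : ∃ J : ℕ, J = jj I ∧ 1 ≤ J := ⟨jj I, rfl, jj_pos I⟩
  have hJr : (1 : ℝ) ≤ (J : ℝ) := by exact_mod_cast hJ1
  have hJ0 : (0 : ℝ) < (J : ℝ) := by linarith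
  have hev : ∀ᶠ x : ℝ in Filter.atTop, 2 ≤ x ^ (1 / 88000 : ℝ) :=
    (tendsto_rpow_atTop (by norm_num : (0 : ℝ) < 1 / 88000)).eventually
      (Filter.eventually_ge_atTop 2)
  obtain ⟨p₀, hp₀⟩ := Filter.eventually_atTop.1
    (tendsto_natCast_atTop_atTop (R := ℝ) |>.eventually hev)
  refine ⟨1 / (16 * (J : ℝ) ^ 2), by positivity, p₀, ?_⟩
  intro p T _ hpp hp hT h2 hord a ha
  have hK := hp₀ p hpp
  have hp1 : (1 : ℝ) < p := by exact_mod_cast hp.one_lt
  have hp0 : (0 : ℝ) < p := by linarith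
  have hb : bet p T J ≤ (p : ℝ) ^ (-(3 / 4) : ℝ) := by
    rcases ep_step hNB hOR hFP p T hp hT h2 hK hord I with h | h
    · rw [hJ]; exact h
    · rw [hJ]
      refine h.trans ?_
      apply Real.rpow_le_rpow_of_exponent_le hp1.le
      linarith
  have hau : IsUnit a := by
    have := Fact.mk hp
    exact IsUnit.mk0 a ha
  have h3 := hBI p T hT h2 J hJ1 a hau
  have h4 : Real.sqrt p * bet p T J ≤ (p : ℝ) ^ (-(1 / 4) : ℝ) := by
    have h5 := mul_le_mul_of_nonneg_left hb (Real.sqrt_nonneg p)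
    refine h5.trans (le_of_eq ?_)
    rw [Real.sqrt_eq_rpow, ← Real.rpow_add hp0]
    norm_num
  by_contra hcon
  push Not at hcon
  have h6 : 0 ≤ (p : ℝ) ^ (-(1 / (16 * (J : ℝ) ^ 2))) := Real.rpow_nonneg hp0.le _
  have h7 := pow_lt_pow_left₀ hcon h6 (n := 4 * J ^ 2) (by positivity)
  have h8 : ((p : ℝ) ^ (-(1 / (16 * (J : ℝ) ^ 2)))) ^ (4 * J ^ 2) = (p : ℝ) ^ (-(1 / 4) : ℝ) := by
    rw [← Real.rpow_natCast, ← Real.rpow_mul hp0.le]
    congr 1
    push_cast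
    field_simp
    norm_num
  rw [h8] at h7
  linarith

end Pool.Agent.Helper13.SPR
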